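import Mathlib
import Pool.Agent.Q177.RectB

/-!
# MP_46c3d4_gt: rectifiable p-spaces of countable cellularity are Lindelöf
-/

set_option autoImplicit false

universe u

namespace Pool.Agent.Results.MP_46c3d4_gt.CccLindelof

open Set Topology

/-- `X` is rectifiable: there are `e ∈ X` and a homeomorphism `φ` of `X × X` onto itself with
`φ ({x} × X) = {x} × X` and `φ (x, x) = (x, e)` for every `x`. -/
def Rectifiable (X : Type u) [TopologicalSpace X] : Prop :=
  ∃ (e : X) (φ : (X × X) ≃ₜ (X × X)), (∀ x, φ '' ({x} ×ˢ univ) = {x} ×ˢ univ) ∧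
    ∀ x, φ (x, x) = (x, e)

/-- `X` is a `p`-space in the sense of Arhangel'skii: a Tychonoff space with a sequence of families
`γ n` of open subsets of `β X`, each covering `X`, such that `⋂ n, St (x, γ n) ⊆ X` for all
`x ∈ X`. -/
def IsPSpace (X : Type u) [TopologicalSpace X] : Prop :=
  T35Space X ∧ ∃ γ : ℕ → Set (Set (StoneCech X)),
    (∀ n, ∀ U ∈ γ n, IsOpen U) ∧ (∀ n, ∀ x : X, ∃ U ∈ γ n, stoneCechUnit x ∈ U) ∧
      ∀ x : X, (⋂ n, ⋃₀ {U | U ∈ γ n ∧ stoneCechUnit x ∈ U}) ⊆
        Set.range (stoneCechUnit : X → StoneCech X)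

/-- `c(X) ≤ ℵ₀`: every family of pairwise disjoint nonempty open sets is countable. -/
def CountableCellularity (X : Type u) [TopologicalSpace X] : Prop :=
  ∀ 𝒞 : Set (Set X), (∀ O ∈ 𝒞, IsOpen O ∧ O.Nonempty) → 𝒞.PairwiseDisjoint id → 𝒞.Countable

/-- Let `X` be a rectifiable space.
(1) If `X` is a `p`-space with `c(X) ≤ ℵ₀`, then `X` is Lindelöf.
(2) If `X` is a separable `p`-space, then `X` is Lindelöf.
(3) More generally, a rectifiable regular `T₁` space with `c(X) ≤ ℵ₀` is Lindelöf if it contains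
one nonempty compact set with a countable base of neighbourhoods. -/
theorem result (X : Type u) [TopologicalSpace X] (hr : Rectifiable X) :
    (IsPSpace X → CountableCellularity X → LindelofSpace X) ∧
    (IsPSpace X → TopologicalSpace.SeparableSpace X → LindelofSpace X) ∧
    (T3Space X → (∃ K : Set X, IsCompact K ∧ K.Nonempty ∧ ∃ O : ℕ → Set X,
        (∀ n, IsOpen (O n) ∧ K ⊆ O n) ∧ ∀ V : Set X, IsOpen V → K ⊆ V → ∃ n, O n ⊆ V) →
      CountableCellularity X → LindelofSpace X) := by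
  refine ⟨?_, ?_, ?_⟩
  · rintro ⟨_, hp⟩ hc
    exact Q177.Rect.lindelof_of_pcond hr hp hc
  · rintro ⟨_, hp⟩ _
    exact Q177.Rect.lindelof_of_pcond hr hp Q177.Rect.ccc_of_separable
  · intro _ hK hc
    exact Q177.Rect.lindelof_of_hasCompact hr hK hc

end Pool.Agent.Results.MP_46c3d4_gt.CccLindelof
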